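import Mathlib

set_option autoImplicit false

/-!
# A closed cone weakly separated from the origin without a bounded base

There is a real normed space with a norm-closed cone `C` such that `0` does not belong to the weak
closure of `C \ ε B` for any `0 < ε < 1`, while `C` has no bounded base.
-/

namespace Pool.Agent.Results.MP_388f8c_an.ClosedConeNoBoundedBase

universe u

/-- A cone: a nonempty set closed under addition and under multiplication by nonnegative reals,
which meets its negative only in `0`. -/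
structure IsCone {X : Type u} [AddCommGroup X] [Module ℝ X] (C : Set X) : Prop where
  nonempty : C.Nonempty
  add_mem : ∀ x ∈ C, ∀ y ∈ C, x + y ∈ C
  smul_mem : ∀ a : ℝ, 0 ≤ a → ∀ x ∈ C, a • x ∈ C
  pointed : ∀ x, x ∈ C → -x ∈ C → x = 0

/-- `B` is a base of `C`: a nonempty convex subset of `C` whose norm closure does not contain `0`,
such that every `c ≠ 0` in `C` can be written in exactly one way as `c = a • b` with `a > 0` and
`b ∈ B`. -/
structure IsBase {X : Type u} [NormedAddCommGroup X] [NormedSpace ℝ X] (C B : Set X) : Prop where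
  nonempty : B.Nonempty
  convex : Convex ℝ B
  subset : B ⊆ C
  zero_notMem : (0 : X) ∉ closure B
  unique_rep : ∀ c ∈ C, c ≠ 0 → ∃! p : ℝ × X, 0 < p.1 ∧ p.2 ∈ B ∧ c = p.1 • p.2

/-- `C` has a bounded base. -/
def HasBoundedBase {X : Type u} [NormedAddCommGroup X] [NormedSpace ℝ X] (C : Set X) : Prop :=
  ∃ B : Set X, IsBase C B ∧ Bornology.IsBounded B

/-- Condition `(∗)`: for every `ε` in `(0,1)` the origin is not in the weak closure of
`C \ ε B_X`, where `B_X` is the closed unit ball. -/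
def WeaklySeparated {X : Type u} [NormedAddCommGroup X] [NormedSpace ℝ X] (C : Set X) : Prop :=
  ∀ ε : ℝ, 0 < ε → ε < 1 →
    (0 : WeakSpace ℝ X) ∉ closure (toWeakSpace ℝ X '' (C \ Metric.closedBall (0 : X) ε))

/-- the space `ℓ¹` of real sequences -/
abbrev L1 : Type := lp (fun _ : ℕ => ℝ) 1

/-- the linear functional `x ↦ ∑ (-1)^n n x_n` on finitely supported sequences -/
noncomputable def h : (ℕ →₀ ℝ) →ₗ[ℝ] ℝ := Finsupp.lsum ℝ fun n : ℕ =>
  (((-1 : ℝ) ^ n * n) • LinearMap.id : ℝ →ₗ[ℝ] ℝ)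

/-- the inclusion of the finitely supported sequences in `ℓ¹` -/
noncomputable def inc : (ℕ →₀ ℝ) →ₗ[ℝ] L1 := Finsupp.lsum ℝ fun n : ℕ =>
  (lp.lsingle (E := fun _ : ℕ => ℝ) 1 n : ℝ →ₗ[ℝ] L1)

/-- the graph of `h` over the finitely supported sequences, as a subspace of `ℝ × ℓ¹` -/
noncomputable def V : Submodule ℝ (ℝ × L1) := LinearMap.range (h.prod inc)

lemma inc_apply (z : ℕ →₀ ℝ) (n : ℕ) : (inc z : L1) n = z n := by
  unfold inc
  rw [Finsupp.lsum_apply, Finsupp.sum]
  rw [lp.coeFn_sum, Finset.sum_apply]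
  simp only [lp.lsingle_apply]
  by_cases hn : n ∈ z.support
  · rw [Finset.sum_eq_single n]
    · simp [lp.single_apply]
    · intro b _ hb
      simp [lp.single_apply, hb.symm]
    · intro h'; exact absurd hn h'
  · rw [Finset.sum_eq_zero]
    · exact (Finsupp.notMem_support_iff.1 hn).symm
    · intro b hb
      have : b ≠ n := by rintro rfl; exact hn hb
      simp [lp.single_apply, this.symm]

/-- the positive cone of `V` -/
def Cn : Set V := {x | ∀ n : ℕ, 0 ≤ ((x : ℝ × L1).2 : L1) n}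

/-- the element of `V` over a finitely supported sequence -/
noncomputable def el (z : ℕ →₀ ℝ) : V := ⟨(h.prod inc) z, LinearMap.mem_range_self _ z⟩

lemma el_fst (z : ℕ →₀ ℝ) : ((el z : V) : ℝ × L1).1 = h z := rfl

lemma el_snd (z : ℕ →₀ ℝ) : ((el z : V) : ℝ × L1).2 = inc z := rfl

lemma exists_el (x : V) : ∃ z, x = el z := by
  obtain ⟨⟨a, b⟩, z, hz⟩ := x
  exact ⟨z, Subtype.ext hz.symm⟩

lemma el_mem (z : ℕ →₀ ℝ) : el z ∈ Cn ↔ ∀ n, 0 ≤ z n := by
  unfold Cn
  simp only [Set.mem_ofPred_eq, el_snd, inc_apply]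

lemma isCone_Cn : IsCone Cn where
  nonempty := ⟨0, fun n => by simp⟩
  add_mem x hx y hy n := by
    have := add_nonneg (hx n) (hy n)
    simpa using this
  smul_mem a ha x hx n := by
    have := mul_nonneg ha (hx n)
    simpa using this
  pointed x hx hx' := by
    obtain ⟨z, rfl⟩ := exists_el x
    have h1 : z = 0 := by
      ext n
      have e1 := (el_mem z).1 hx n
      have e2 := hx' n
      have e3 : (((-(el z) : V) : ℝ × L1).2 : L1) n = - z n := by
        have : (((-(el z) : V) : ℝ × L1).2 : L1) = - inc z := rfl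
        rw [this, lp.coeFn_neg, Pi.neg_apply, inc_apply]
      rw [e3] at e2
      rw [Finsupp.coe_zero, Pi.zero_apply]
      linarith
    subst h1
    apply Subtype.ext
    show (h.prod inc) 0 = 0
    simp

/-- evaluation at a coordinate -/
lemma continuous_coord (n : ℕ) : Continuous fun x : V => (((x : ℝ × L1).2 : L1) n) := by
  have h1 : Continuous fun y : L1 => (y n : ℝ) := by
    have := (lp.uniformContinuous_coe (E := fun _ : ℕ => ℝ) (p := 1)).continuous
    exact (continuous_apply n).comp this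
  exact h1.comp (continuous_snd.comp continuous_subtype_val)

lemma isClosed_Cn : IsClosed Cn := by
  have : Cn = ⋂ n : ℕ, {x : V | 0 ≤ (((x : ℝ × L1).2 : L1) n)} := by
    ext x; simp [Cn]
  rw [this]
  exact isClosed_iInter fun n => isClosed_le continuous_const (continuous_coord n)

/-- the first coordinate -/
noncomputable def f₁ : V →L[ℝ] ℝ := (ContinuousLinearMap.fst ℝ ℝ L1).comp V.subtypeL

/-- the sum of the sequence -/
noncomputable def f₂ : V →L[ℝ] ℝ :=
  (lp.tsumCLM ℝ ℕ ℝ).comp ((ContinuousLinearMap.snd ℝ ℝ L1).comp V.subtypeL)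

lemma f₂_eq {x : V} (hx : x ∈ Cn) : f₂ x = ‖((x : ℝ × L1).2 : L1)‖ := by
  have h1 : ‖((x : ℝ × L1).2 : L1)‖ = ∑' i, ‖((x : ℝ × L1).2 : L1) i‖ := by
    rw [lp.norm_eq_tsum_rpow (by simp)]
    simp
  rw [h1]
  show ∑' i, ((x : ℝ × L1).2 : L1) i = _
  congr 1
  funext i
  exact (Real.norm_of_nonneg (hx i)).symm

lemma weaklySeparated_Cn : WeaklySeparated Cn := by
  intro ε hε _ hmem
  have hc1 : Continuous fun x : WeakSpace ℝ V => f₁ ((toWeakSpace ℝ V).symm x) :=
    WeakBilin.eval_continuous (topDualPairing ℝ V).flip f₁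
  have hc2 : Continuous fun x : WeakSpace ℝ V => f₂ ((toWeakSpace ℝ V).symm x) :=
    WeakBilin.eval_continuous (topDualPairing ℝ V).flip f₂
  have hU : IsOpen {x : WeakSpace ℝ V | |f₁ ((toWeakSpace ℝ V).symm x)| < ε ∧
      |f₂ ((toWeakSpace ℝ V).symm x)| < ε} :=
    (isOpen_lt hc1.abs continuous_const).inter (isOpen_lt hc2.abs continuous_const)
  rw [mem_closure_iff] at hmem
  obtain ⟨y, ⟨hy1, hy2⟩, x, ⟨hx, hx'⟩, rfl⟩ := hmem _ hU (by simp [hε])
  simp only [LinearEquiv.symm_apply_apply] at hy1 hy2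
  apply hx'
  rw [mem_closedBall_zero_iff]
  have e1 : ‖x‖ = max ‖((x : ℝ × L1).1)‖ ‖((x : ℝ × L1).2 : L1)‖ := rfl
  rw [e1]
  refine max_le hy1.le ?_
  rw [← f₂_eq hx]
  exact (le_abs_self _).trans hy2.le

lemma h_single (n : ℕ) (a : ℝ) : h (Finsupp.single n a) = (-1) ^ n * n * a := by
  unfold h
  simp

lemma norm_el_ge (z : ℕ →₀ ℝ) : |h z| ≤ ‖el z‖ := by
  have e1 : ‖el z‖ = max ‖h z‖ ‖inc z‖ := rfl
  rw [e1]
  exact le_max_left _ _

lemma norm_inc_single (n : ℕ) (a : ℝ) : ‖inc (Finsupp.single n a)‖ = |a| := by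
  unfold inc
  rw [Finsupp.lsum_single]
  have : (lp.lsingle (E := fun _ : ℕ => ℝ) 1 n : ℝ →ₗ[ℝ] L1) a
      = lp.single (E := fun _ : ℕ => ℝ) 1 n a := rfl
  rw [this, lp.norm_single (by simp)]
  rfl

theorem not_hasBoundedBase : ¬ HasBoundedBase Cn := by
  rintro ⟨B, hB, hbdd⟩
  obtain ⟨M, hM⟩ := hbdd.exists_norm_le
  obtain ⟨f, u, hf0, hfu⟩ := geometric_hahn_banach_point_closed (hB.convex.closure)
    isClosed_closure hB.zero_notMem
  rw [map_zero] at hf0
  have hM1 : 0 < |M| + 1 := by positivity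
  -- `f` is bounded below on the cone
  have key : ∀ c ∈ Cn, u / (|M| + 1) * ‖c‖ ≤ f c := by
    intro c hc
    rcases eq_or_ne c 0 with rfl | hc0
    · simp
    obtain ⟨p, ⟨hp1, hp2, hp3⟩, -⟩ := hB.unique_rep c hc hc0
    have h1 := hfu _ (subset_closure hp2)
    have h2 := hM _ hp2
    have h3 : ‖p.2‖ ≤ |M| + 1 := by linarith [le_abs_self M]
    rw [hp3, map_smul, norm_smul, smul_eq_mul, Real.norm_of_nonneg hp1.le]
    have h4 : u / (|M| + 1) * ‖p.2‖ ≤ u := by
      rw [div_mul_eq_mul_div, div_le_iff₀ hM1]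
      exact mul_le_mul_of_nonneg_left h3 hf0.le
    calc u / (|M| + 1) * (p.1 * ‖p.2‖) = p.1 * (u / (|M| + 1) * ‖p.2‖) := by ring
      _ ≤ p.1 * u := mul_le_mul_of_nonneg_left h4 hp1.le
      _ ≤ p.1 * f p.2 := mul_le_mul_of_nonneg_left h1.le hp1.le
  set δ := u / (|M| + 1) with hδ
  have hδ0 : 0 < δ := by positivity
  obtain ⟨k, hk⟩ := exists_nat_gt (‖f‖ / δ + 1)
  have hk1 : (1 : ℝ) ≤ k := by
    have : 0 ≤ ‖f‖ / δ := by positivity
    linarith
  -- the two basis vectors
  set x := el (Finsupp.single (2 * k) 1) with hx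
  set y := el (Finsupp.single (2 * k + 1) 1) with hy
  have hxC : x ∈ Cn := (el_mem _).2 fun n => by
    rw [Finsupp.single_apply]; split_ifs <;> norm_num
  have hyC : y ∈ Cn := (el_mem _).2 fun n => by
    rw [Finsupp.single_apply]; split_ifs <;> norm_num
  have hxn : 2 * (k : ℝ) ≤ ‖x‖ := by
    refine le_trans ?_ (norm_el_ge _)
    rw [h_single, pow_mul]
    norm_num
  have hyn : 2 * (k : ℝ) + 1 ≤ ‖y‖ := by
    refine le_trans ?_ (norm_el_ge _)
    rw [h_single, pow_succ, pow_mul]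
    have : ((-1 : ℝ) ^ 2) ^ k * -1 * ((2 * k + 1 : ℕ) : ℝ) * 1 = -(2 * (k : ℝ) + 1) := by
      push_cast; norm_num
    rw [this, abs_neg, abs_of_nonneg (by positivity)]
  have hsum : (2 * (k : ℝ) + 1) • x + (2 * (k : ℝ)) • y
      = el (Finsupp.single (2 * k) (2 * (k : ℝ) + 1) + Finsupp.single (2 * k + 1) (2 * (k : ℝ))) := by
    apply Subtype.ext
    show (2 * (k : ℝ) + 1) • (h.prod inc) _ + (2 * (k : ℝ)) • (h.prod inc) _ = (h.prod inc) _
    rw [← map_smul, ← map_smul, ← map_add]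
    simp
  have hnorm : ‖(2 * (k : ℝ) + 1) • x + (2 * (k : ℝ)) • y‖ ≤ 4 * k + 1 := by
    rw [hsum]
    have e1 : ∀ z, ‖el z‖ = max ‖h z‖ ‖inc z‖ := fun _ => rfl
    rw [e1]
    apply max_le
    · rw [map_add, h_single, h_single, pow_succ, pow_mul]
      have : ((-1 : ℝ) ^ 2) ^ k * ((2 * k : ℕ) : ℝ) * (2 * k + 1) +
          ((-1 : ℝ) ^ 2) ^ k * -1 * ((2 * k + 1 : ℕ) : ℝ) * (2 * k) = 0 := by
        push_cast; norm_num; ring
      rw [this, norm_zero]
      positivity
    · rw [map_add]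
      refine (norm_add_le _ _).trans ?_
      rw [norm_inc_single, norm_inc_single, abs_of_nonneg (by positivity),
        abs_of_nonneg (by positivity)]
      linarith
  have h1 : f ((2 * (k : ℝ) + 1) • x + (2 * (k : ℝ)) • y) ≤ ‖f‖ * (4 * k + 1) :=
    (le_abs_self _).trans ((f.le_opNorm _).trans
      (mul_le_mul_of_nonneg_left hnorm (norm_nonneg _)))
  rw [map_add, map_smul, map_smul, smul_eq_mul, smul_eq_mul] at h1
  have h2 := key x hxC
  have h3 := key y hyC
  have h4 : δ * (2 * k) ≤ f x := (mul_le_mul_of_nonneg_left hxn hδ0.le).trans h2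
  have h5 : δ * (2 * k + 1) ≤ f y := (mul_le_mul_of_nonneg_left hyn hδ0.le).trans h3
  have h6 : (2 * (k : ℝ) + 1) * (δ * (2 * k)) + 2 * k * (δ * (2 * k + 1)) ≤ ‖f‖ * (4 * k + 1) := by
    have e1 := mul_le_mul_of_nonneg_left h4 (by positivity : 0 ≤ 2 * (k : ℝ) + 1)
    have e2 := mul_le_mul_of_nonneg_left h5 (by positivity : 0 ≤ 2 * (k : ℝ))
    linarith
  have h7 : ‖f‖ < δ * k := by
    have : ‖f‖ / δ < k := by linarith
    rwa [div_lt_iff₀ hδ0, mul_comm] at this
  have h8 : ‖f‖ * (4 * k + 1) ≤ (δ * k) * (4 * k + 1) :=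
    mul_le_mul_of_nonneg_right h7.le (by positivity)
  nlinarith [mul_pos hδ0 (lt_of_lt_of_le one_pos hk1)]

/-- There is a real normed space with a closed cone `C` satisfying condition `(∗)` (the origin is not
in the weak closure of `C \ ε B` for `0 < ε < 1`) which has no bounded base. -/
theorem result : ∃ (X : Type) (_ : NormedAddCommGroup X) (_ : NormedSpace ℝ X) (C : Set X),
    IsCone C ∧ IsClosed C ∧ WeaklySeparated C ∧ ¬ HasBoundedBase C :=
  ⟨V, inferInstance, inferInstance, Cn, isCone_Cn, isClosed_Cn, weaklySeparated_Cn,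
    not_hasBoundedBase⟩

end Pool.Agent.Results.MP_388f8c_an.ClosedConeNoBoundedBase
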